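import Pool.Agent.Lib.MP_df084a_an.Defs
import Pool.Agent.Lib.MP_df084a_an.Chain

/-!
# There is no discrete Dieudonne-Schwarz lemma for circle packings

For every `C > 0` there are a combinatorial closed disc `K` with an interior vertex `v₀`, its
maximal packing `M` (with the circle of `v₀` centred at `0`) and a univalent circle packing `P`
for `K` in the unit disc (again with the circle of `v₀` centred at `0`), together with a vertex `v`
whose circle in `M` has its centre in `|z| ≤ C` and whose circle in `P` is strictly larger than its
circle in `M`.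
-/

namespace Pool.Agent.Results.MP_df084a_an.NoDieudonne

open Pool.Agent.Lib.MP_df084a_an

/-- **There is no discrete Dieudonne-Schwarz lemma.** -/
theorem result : ∀ C : ℝ, 0 < C →
    ∃ (V : Type) (_ : Fintype V) (_ : DecidableEq V) (K : Complex2 V) (o : K.Orientation)
      (v₀ : V) (M P : Circles V),
      K.IsClosedDisc ∧ ¬ K.IsBoundary v₀ ∧
      IsMaximalPacking K o M ∧ M.center v₀ = 0 ∧
      IsCirclePacking K o P ∧ LiesInDisc K P ∧ P.IsUnivalent ∧ P.center v₀ = 0 ∧
      ∃ v : V, ‖M.center v‖ ≤ C ∧ 1 < P.radius v / M.radius v :=
  exists_counterexample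

end Pool.Agent.Results.MP_df084a_an.NoDieudonne
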